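import Pool.Agent.HN.AH.Dwork

/-!
# HN/AH/Rest : the remaining identities of the Artin–Hasse series
-/

open PowerSeries

namespace HN.AHs

section ode
variable {K : Type*}

/-- uniqueness up to degree `N` for the differential equation -/
theorem ode_unique' [CommRing K] (htf : ∀ (n : ℕ), ∀ x : K, ((n : K) + 1) * x = 0 → x = 0)
    {F H G₁ G₂ : K⟦X⟧} (N : ℕ) (h0 : coeff 0 F = coeff 0 H)
    (hF : d⁄dX K F = F * G₁) (hH : d⁄dX K H = H * G₂)
    (hG : ∀ i, i + 1 < N → coeff i G₁ = coeff i G₂) : ∀ n, n < N → coeff n F = coeff n H := by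
  intro n
  induction n using Nat.strong_induction_on with
  | _ n ih =>
  intro hn
  rcases n with _ | n
  · exact h0
  have h1 := congrArg (coeff n) hF
  have h2 := congrArg (coeff n) hH
  rw [coeff_derivative, coeff_mul] at h1 h2
  have h3 : ∑ q ∈ Finset.HasAntidiagonal.antidiagonal n, coeff q.1 F * coeff q.2 G₁
      = ∑ q ∈ Finset.HasAntidiagonal.antidiagonal n, coeff q.1 H * coeff q.2 G₂ := by
    refine Finset.sum_congr rfl fun q hq => ?_
    have hq' := Finset.HasAntidiagonal.mem_antidiagonal.mp hq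
    rw [ih q.1 (by omega) (by omega), hG q.2 (by omega)]
  have h4 : ((n : K) + 1) * (coeff (n + 1) F - coeff (n + 1) H) = 0 := by
    linear_combination h1 - h2 + h3
  exact sub_eq_zero.mp (htf n _ h4)

end ode

variable (p : ℕ) [hp : Fact p.Prime]

theorem htf (n : ℕ) (x : ℚ_[p]) (h : ((n : ℚ_[p]) + 1) * x = 0) : x = 0 := by
  have h1 : ((n : ℚ_[p]) + 1) ≠ 0 := by exact_mod_cast Nat.succ_ne_zero n
  exact (mul_eq_zero.mp h).resolve_left h1

theorem eK_ode : d⁄dX ℚ_[p] (mk (eK p)) = mk (eK p) * mk (fun n => ip p ℚ_[p] (n + 1)) :=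
  sol_ode _

theorem derivative_expand' (f : ℚ_[p]⟦X⟧) {m : ℕ} (hm : m ≠ 0) :
    d⁄dX ℚ_[p] (expand m hm f) = expand m hm (d⁄dX ℚ_[p] f) * (C (m : ℚ_[p]) * X ^ (m - 1)) := by
  rw [expand_apply, expand_apply, derivative_subst (HasSubst.X_pow hm),
    derivative_pow, derivative_X, mul_one, map_natCast]

theorem derivative_rescale (f : ℚ_[p]⟦X⟧) (a : ℚ_[p]) :
    d⁄dX ℚ_[p] (rescale a f) = C a * rescale a (d⁄dX ℚ_[p] f) := by
  ext n
  rw [coeff_derivative, coeff_C_mul, coeff_rescale, coeff_rescale, coeff_derivative, pow_succ]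
  ring

/-- `exp (p a X^m)` -/
noncomputable def FK (a : ℚ_[p]) (m : ℕ) (hm : m ≠ 0) : ℚ_[p]⟦X⟧ :=
  expand m hm (rescale a (mk (xK p)))

theorem FK_ode (a : ℚ_[p]) (m : ℕ) (hm : m ≠ 0) :
    d⁄dX ℚ_[p] (FK p a m hm) = FK p a m hm * (C (m * p * a) * X ^ (m - 1)) := by
  rw [FK, derivative_expand', derivative_rescale, xK_ode]
  simp only [map_mul, map_natCast]
  have h1 : expand m hm (C a : ℚ_[p]⟦X⟧) = C a := expand_C m hm a
  rw [h1]
  ring

theorem FK_zero (a : ℚ_[p]) (m : ℕ) (hm : m ≠ 0) : coeff 0 (FK p a m hm) = 1 := by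
  rw [FK, coeff_expand, if_pos (dvd_zero m), Nat.zero_div, coeff_rescale, pow_zero, one_mul,
    coeff_mk, xK_zero]

theorem FK_coeff (a : ℚ_[p]) (m : ℕ) (hm : m ≠ 0) (n : ℕ) : coeff n (FK p a m hm) =
    if m ∣ n then xK p (n / m) * a ^ (n / m) else 0 := by
  rw [FK, coeff_expand]
  split_ifs
  · rw [coeff_rescale, coeff_mk, mul_comm]
  · rfl

theorem ppow_sub (j : ℕ) : j + 1 ≤ p ^ j := Nat.lt_pow_self hp.out.one_lt

theorem ppow_ne (j : ℕ) : p ^ j ≠ 0 := pow_ne_zero _ hp.out.ne_zero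

/-- partial products of `E(pX)` -/
noncomputable def PK (J : ℕ) : ℚ_[p]⟦X⟧ :=
  ∏ j ∈ Finset.range J, FK p ((p : ℚ_[p]) ^ (p ^ j - j - 1)) (p ^ j) (ppow_ne p j)

theorem PK_ode (J : ℕ) : d⁄dX ℚ_[p] (PK p J) = PK p J *
    ∑ j ∈ Finset.range J, C ((p : ℚ_[p]) ^ p ^ j) * X ^ (p ^ j - 1) := by
  induction J with
  | zero => simp [PK]
  | succ J ih =>
    have h1 : PK p (J + 1) = PK p J * FK p ((p : ℚ_[p]) ^ (p ^ J - J - 1)) (p ^ J) (ppow_ne p J) := by
      rw [PK, Finset.prod_range_succ, ← PK]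
    have h2 : ((p ^ J : ℕ) : ℚ_[p]) * p * (p : ℚ_[p]) ^ (p ^ J - J - 1) = (p : ℚ_[p]) ^ p ^ J := by
      have h3 := ppow_sub p J
      have h4 : p ^ J = J + 1 + (p ^ J - J - 1) := by omega
      conv_rhs => rw [h4, pow_add, pow_succ]
      push_cast
      ring
    rw [h1, Derivation.leibniz, ih, FK_ode, h2, Finset.sum_range_succ, smul_eq_mul, smul_eq_mul]
    ring

theorem PK_zero (J : ℕ) : coeff 0 (PK p J) = 1 := by
  rw [PK, coeff_zero_eq_constantCoeff_apply, map_prod]
  refine Finset.prod_eq_one fun j _ => ?_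
  rw [← coeff_zero_eq_constantCoeff_apply, FK_zero]

theorem eK_p (J n : ℕ) (hn : n < p ^ J) : (p : ℚ_[p]) ^ n * eK p n = coeff n (PK p J) := by
  have h1 : d⁄dX ℚ_[p] (rescale (p : ℚ_[p]) (mk (eK p))) = rescale (p : ℚ_[p]) (mk (eK p)) *
      (C (p : ℚ_[p]) * rescale (p : ℚ_[p]) (mk (fun n => ip p ℚ_[p] (n + 1)))) := by
    rw [derivative_rescale, eK_ode, map_mul]; ring
  have h2 := ode_unique' (htf p) (p ^ J) (F := rescale (p : ℚ_[p]) (mk (eK p))) (H := PK p J)
    (by rw [PK_zero, coeff_rescale, pow_zero, one_mul, coeff_mk, eK_zero]) h1 (PK_ode p J) ?_ n hn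
  · rw [← h2, coeff_rescale, coeff_mk]
  · intro i hi
    rw [coeff_C_mul, coeff_rescale, coeff_mk, map_sum]
    simp only [coeff_C_mul, coeff_X_pow]
    by_cases h : ∃ j, i + 1 = p ^ j
    · obtain ⟨j, hj⟩ := h
      have hjJ : j < J := by
        rw [hj] at hi
        exact (Nat.pow_lt_pow_iff_right hp.out.one_lt).mp hi
      rw [Finset.sum_eq_single j]
      · have h3 : ip p ℚ_[p] (i + 1) = 1 := by rw [ip, if_pos ⟨j, hj⟩]
        rw [h3, if_pos (by omega), ← hj, pow_succ]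
        ring
      · intro b _ hb
        rw [if_neg, mul_zero]
        intro h4
        apply hb
        have h5 := ppow_sub p b
        have h6 : p ^ b = p ^ j := by omega
        exact Nat.pow_right_injective hp.out.two_le h6
      · intro h4
        exact absurd (Finset.mem_range.mpr hjJ) h4
    · have h3 : ip p ℚ_[p] (i + 1) = 0 := by rw [ip, if_neg h]
      rw [h3, mul_zero, mul_zero]
      symm
      refine Finset.sum_eq_zero fun j _ => ?_
      rw [if_neg, mul_zero]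
      intro h4
      have h5 := ppow_sub p j
      exact h ⟨j, by omega⟩

theorem eK_rec (n : ℕ) : (n : ℚ_[p]) * eK p n
    = ∑ l ∈ (Finset.range (n + 1)).filter (fun l => p ^ l ≤ n), eK p (n - p ^ l) := by
  classical
  rcases n with _ | n
  · rw [Nat.cast_zero, zero_mul]
    symm
    refine Finset.sum_eq_zero fun l hl => ?_
    have h1 := (Finset.mem_filter.mp hl).2
    have h2 := ppow_sub p l
    omega
  have h1 := congrArg (coeff n) (eK_ode p)
  rw [coeff_derivative, coeff_mul, coeff_mk, Finset.Nat.sum_antidiagonal_eq_sum_range_succ_mk] at h1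
  simp only [coeff_mk] at h1
  push_cast
  rw [mul_comm, h1]
  have h3 : ∑ i ∈ Finset.range (n + 1), eK p i * ip p ℚ_[p] (n - i + 1)
      = ∑ i ∈ (Finset.range (n + 1)).filter (fun i => ∃ j, n - i + 1 = p ^ j), eK p i := by
    classical
    rw [Finset.sum_filter]
    refine Finset.sum_congr rfl fun i _ => ?_
    by_cases h : ∃ j, n - i + 1 = p ^ j
    · rw [ip, if_pos h, if_pos h, mul_one]
    · rw [ip, if_neg h, if_neg h, mul_zero]
  rw [h3]
  symm
  refine Finset.sum_bij (fun l _ => n + 1 - p ^ l) ?_ ?_ ?_ ?_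
  · intro l hl
    have h4 := (Finset.mem_filter.mp hl).2
    have h5 := ppow_sub p l
    rw [Finset.mem_filter, Finset.mem_range]
    exact ⟨by omega, l, by omega⟩
  · intro l hl l' hl' h
    have h4 := (Finset.mem_filter.mp hl).2
    have h4' := (Finset.mem_filter.mp hl').2
    have h6 : p ^ l = p ^ l' := by omega
    exact Nat.pow_right_injective hp.out.two_le h6
  · intro i hi
    obtain ⟨h4, j, hj⟩ := Finset.mem_filter.mp hi
    have h4' := Finset.mem_range.mp h4
    have h5 := ppow_sub p j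
    refine ⟨j, ?_, by omega⟩
    rw [Finset.mem_filter, Finset.mem_range]
    exact ⟨by omega, by omega⟩
  · intro l hl
    rfl

end HN.AHs
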