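import Pool.Agent.HN.AH.Series

/-!
# HN/AH/Dwork : the coefficients of the Artin–Hasse series are `p`-integral
-/

open PowerSeries

namespace HN.AHs

variable (p : ℕ) [hp : Fact p.Prime]

/-- being `p` times a `p`-adic integer -/
def PI (x : ℚ_[p]) : Prop := ∃ y : ℤ_[p], x = (p : ℚ_[p]) * y

variable {p}

theorem PI.add {x y : ℚ_[p]} (hx : PI p x) (hy : PI p y) : PI p (x + y) := by
  obtain ⟨a, rfl⟩ := hx
  obtain ⟨b, rfl⟩ := hy
  exact ⟨a + b, by push_cast; ring⟩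

theorem PI.sub {x y : ℚ_[p]} (hx : PI p x) (hy : PI p y) : PI p (x - y) := by
  obtain ⟨a, rfl⟩ := hx
  obtain ⟨b, rfl⟩ := hy
  exact ⟨a - b, by push_cast; ring⟩

theorem PI.zero : PI p 0 := ⟨0, by simp⟩

theorem PI.sum {ι : Type*} (s : Finset ι) (f : ι → ℚ_[p]) (h : ∀ i ∈ s, PI p (f i)) :
    PI p (∑ i ∈ s, f i) := by
  classical
  induction s using Finset.induction_on with
  | empty => simpa using PI.zero
  | insert a s ha ih =>
    rw [Finset.sum_insert ha]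
    exact (h a (Finset.mem_insert_self a s)).add (ih fun i hi => h i (Finset.mem_insert_of_mem hi))

theorem PI.mul {x : ℚ_[p]} (hx : PI p x) {y : ℚ_[p]} (hy : ‖y‖ ≤ 1) : PI p (x * y) := by
  obtain ⟨a, rfl⟩ := hx
  exact ⟨a * ⟨y, hy⟩, by push_cast; ring⟩

variable (p)

theorem xK_zero : xK p 0 = 1 := by simp [xK]

theorem natCast_isUnit {m : ℕ} (hm : ¬ p ∣ m) : IsUnit (m : ℤ_[p]) := by
  rw [PadicInt.isUnit_iff, PadicInt.norm_natCast_eq_one_iff]
  exact (Nat.Prime.coprime_iff_not_dvd hp.out).mpr hm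

theorem xK_PI (n : ℕ) (hn : n ≠ 0) : PI p (xK p n) := by
  have h0 : n.factorial ≠ 0 := Nat.factorial_ne_zero n
  obtain ⟨v, m, hm, hv⟩ := Nat.exists_eq_pow_mul_and_not_dvd h0 p hp.out.ne_one
  have h1 := sub_one_mul_padicValNat_factorial_lt_of_ne_zero p hn
  have h2 : padicValNat p n.factorial = v := by
    rw [hv]
    have hm0 : m ≠ 0 := by rintro rfl; exact hm (dvd_zero p)
    rw [padicValNat.mul (pow_ne_zero _ hp.out.ne_zero) hm0, padicValNat.prime_pow,
      padicValNat.eq_zero_of_not_dvd hm, add_zero]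
  rw [h2] at h1
  have hp1 : 1 ≤ p - 1 := by have := hp.out.two_le; omega
  have h3 : v < n := by nlinarith
  obtain ⟨w, hw⟩ := natCast_isUnit p hm
  refine ⟨(p : ℤ_[p]) ^ (n - v - 1) * ((w⁻¹ : ℤ_[p]ˣ) : ℤ_[p]), ?_⟩
  have h4 : ((w : ℤ_[p]) : ℚ_[p]) = (m : ℚ_[p]) := by rw [hw]; simp
  have h5 : ((w : ℤ_[p]) : ℚ_[p]) * (((w⁻¹ : ℤ_[p]ˣ) : ℤ_[p]) : ℚ_[p]) = 1 := by
    rw [← PadicInt.coe_mul, Units.mul_inv, PadicInt.coe_one]
  have hp0 : (p : ℚ_[p]) ≠ 0 := by exact_mod_cast hp.out.ne_zero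
  have hm0 : (m : ℚ_[p]) ≠ 0 := by
    rw [← h4]; intro h; rw [h, zero_mul] at h5; exact zero_ne_one h5
  have h6 : n = v + 1 + (n - v - 1) := by omega
  rw [h4] at h5
  rw [xK, hv]
  push_cast
  rw [div_eq_iff (mul_ne_zero (pow_ne_zero _ hp0) hm0)]
  calc (p : ℚ_[p]) ^ n = p ^ (v + 1 + (n - v - 1)) := by rw [← h6]
    _ = (p : ℚ_[p]) ^ v * p * p ^ (n - v - 1) * 1 := by rw [pow_add, pow_add]; ring
    _ = (p : ℚ_[p]) ^ v * p * p ^ (n - v - 1) * ((m : ℚ_[p]) *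
        (((w⁻¹ : ℤ_[p]ˣ) : ℤ_[p]) : ℚ_[p])) := by rw [h5]
    _ = _ := by ring

/-- `Q^p ≡ Q(X^p)` mod `p` over the `p`-adic integers -/
theorem frob_poly (Q : Polynomial ℤ_[p]) (n : ℕ) :
    (p : ℤ_[p]) ∣ (Q ^ p).coeff n - (Polynomial.expand ℤ_[p] p Q).coeff n := by
  rw [← PadicInt.norm_lt_one_iff_dvd, ← PadicInt.mem_nonunits, ← IsLocalRing.mem_maximalIdeal,
    ← PadicInt.ker_toZMod, RingHom.mem_ker, map_sub, ← Polynomial.coeff_map, ← Polynomial.coeff_map,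
    Polynomial.map_pow, Polynomial.map_expand, ZMod.expand_card, sub_self]

theorem eK_zero : eK p 0 = 1 := by rw [eK, sol_zero]

/-- Dwork's lemma for `E` -/
theorem eK_int (n : ℕ) : ‖eK p n‖ ≤ 1 := by
  induction n using Nat.strong_induction_on with
  | _ n ih =>
  rcases Nat.eq_zero_or_pos n with rfl | hn
  · rw [eK_zero]; simp
  -- the truncation
  set E : ℚ_[p]⟦X⟧ := mk (eK p) with hE
  set T : ℚ_[p]⟦X⟧ := (trunc n E : ℚ_[p]⟦X⟧) with hT
  set R : ℚ_[p]⟦X⟧ := mk fun i => coeff (i + n) E with hR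
  have hdec : E = T + X ^ n * R := by
    rw [hT, hR, add_comm]
    exact eq_X_pow_mul_shift_add_trunc n E
  obtain ⟨k, hk⟩ := Polynomial.powAddExpansion T (X ^ n * R) p
  have hT0 : constantCoeff T = 1 := by
    rw [hT, ← coeff_zero_eq_constantCoeff_apply, Polynomial.coeff_coe, coeff_trunc,
      if_pos hn, hE, coeff_mk, eK_zero]
  have hR0 : constantCoeff R = eK p n := by
    rw [hR, ← coeff_zero_eq_constantCoeff_apply, coeff_mk, zero_add, hE, coeff_mk]
  have h1 : coeff n (E ^ p) = coeff n (T ^ p) + p * eK p n := by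
    rw [hdec, hk]
    have e1 : k * (X ^ n * R) ^ 2 = X ^ (2 * n) * (k * R ^ 2) := by ring
    have e2 : (p : ℚ_[p]⟦X⟧) * T ^ (p - 1) * (X ^ n * R) =
        X ^ n * ((p : ℚ_[p]⟦X⟧) * T ^ (p - 1) * R) := by ring
    rw [e1, e2, map_add, map_add, coeff_X_pow_mul', coeff_X_pow_mul', if_pos le_rfl,
      if_neg (by omega), Nat.sub_self, coeff_zero_eq_constantCoeff_apply, map_mul, map_mul,
      map_pow (constantCoeff (R := ℚ_[p])), hT0, hR0, map_natCast]
    ring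
  -- lift of the truncation
  let Q : Polynomial ℤ_[p] := ∑ i ∈ Finset.range n, Polynomial.monomial i
    (if h : ‖eK p i‖ ≤ 1 then (⟨eK p i, h⟩ : ℤ_[p]) else 0)
  have hQ : ∀ i, ((Q.coeff i : ℤ_[p]) : ℚ_[p]) = if i < n then eK p i else 0 := by
    intro i
    simp only [Q, Polynomial.finsetSum_coeff, Polynomial.coeff_monomial]
    rw [Finset.sum_ite_eq']
    by_cases hi : i < n
    · rw [if_pos (Finset.mem_range.mpr hi), if_pos hi, dif_pos (ih i hi)]
    · rw [if_neg (by simpa using hi), if_neg hi]; simp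
  have hQT : ((Q.map (PadicInt.Coe.ringHom (p := p)) : Polynomial ℚ_[p]) : ℚ_[p]⟦X⟧) = T := by
    ext i
    rw [Polynomial.coeff_coe, Polynomial.coeff_map, hT, Polynomial.coeff_coe, coeff_trunc, hE,
      coeff_mk]
    exact hQ i
  have h2 : coeff n (T ^ p) = (((Q ^ p).coeff n : ℤ_[p]) : ℚ_[p]) := by
    rw [← hQT, ← Polynomial.coe_pow, Polynomial.coeff_coe, ← Polynomial.map_pow,
      Polynomial.coeff_map]
    rfl
  have h3 : coeff n (expand p hp.out.ne_zero E) =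
      (((Polynomial.expand ℤ_[p] p Q).coeff n : ℤ_[p]) : ℚ_[p]) := by
    rw [coeff_expand, Polynomial.coeff_expand hp.out.pos]
    by_cases h : p ∣ n
    · rw [if_pos h, if_pos h, hQ, if_pos (Nat.div_lt_self hn hp.out.one_lt), hE, coeff_mk]
    · rw [if_neg h, if_neg h]; simp
  obtain ⟨z, hz⟩ := frob_poly p Q n
  have h4 : coeff n (mk (xK p) * expand p hp.out.ne_zero E)
      = coeff n (expand p hp.out.ne_zero E) +
        ∑ i ∈ Finset.range n, xK p (i + 1) * coeff (n - (i + 1)) (expand p hp.out.ne_zero E) := by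
    rw [coeff_mul, Finset.Nat.sum_antidiagonal_eq_sum_range_succ_mk, Finset.sum_range_succ',
      add_comm]
    simp only [coeff_mk, xK_zero, one_mul, Nat.sub_zero]
  have h5 : PI p (∑ i ∈ Finset.range n,
      xK p (i + 1) * coeff (n - (i + 1)) (expand p hp.out.ne_zero E)) := by
    refine PI.sum _ _ fun i hi => ?_
    refine (xK_PI p (i + 1) (by omega)).mul ?_
    rw [coeff_expand]
    split_ifs with h
    · rw [hE, coeff_mk]
      refine ih _ (lt_of_le_of_lt (Nat.div_le_self _ _) ?_)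
      have := Finset.mem_range.mp hi
      omega
    · simp
  have h6 := congrArg (coeff n) (eK_pow p)
  rw [← hE, h1, h4, h2, h3] at h6
  have h7 : PI p ((p : ℚ_[p]) * eK p n) := by
    have h8 : (p : ℚ_[p]) * eK p n = (∑ i ∈ Finset.range n,
        xK p (i + 1) * coeff (n - (i + 1)) (expand p hp.out.ne_zero E)) -
        (((Q ^ p).coeff n : ℤ_[p]) - ((Polynomial.expand ℤ_[p] p Q).coeff n : ℤ_[p])) := by
      linear_combination h6
    rw [h8]
    refine h5.sub ⟨z, ?_⟩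
    rw [← PadicInt.coe_sub, hz]
    push_cast
    ring
  obtain ⟨y, hy⟩ := h7
  have hp0 : (p : ℚ_[p]) ≠ 0 := by exact_mod_cast hp.out.ne_zero
  rw [mul_left_cancel₀ hp0 hy]
  exact y.2

/-- the coefficients of the Artin–Hasse series -/
noncomputable def e (n : ℕ) : ℤ_[p] := ⟨eK p n, eK_int p n⟩

theorem e_coe (n : ℕ) : ((e p n : ℤ_[p]) : ℚ_[p]) = eK p n := rfl

theorem e_zero : e p 0 = 1 := by
  apply Subtype.ext
  exact eK_zero p

end HN.AHs
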