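import Mathlib

/-!
# HN/AH/Series : the Artin–Hasse series

`HN.AHs.e p n : ℤ_[p]` are the coefficients of `E(t) = exp (∑ t^(p^j)/p^j)`:
`e 0 = 1` and `n e_n = ∑_{p^j ≤ n} e_{n-p^j}` (`t E' = E ∑ t^(p^j)`), and
`E(t)^p = exp(p t) E(t^p)` coefficientwise (`expInt` are the coefficients `p^n/n!` of `exp(p t)`).
-/

open PowerSeries

namespace HN.AHs

section ode
variable {K : Type*}

/-- uniqueness for the differential equation `F' = F G` -/
theorem ode_unique [CommRing K] (htf : ∀ (n : ℕ), ∀ x : K, ((n : K) + 1) * x = 0 → x = 0)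
    {F H G : K⟦X⟧} (h0 : coeff 0 F = coeff 0 H)
    (hF : d⁄dX K F = F * G) (hH : d⁄dX K H = H * G) : F = H := by
  have key : ∀ n, ∀ m, m ≤ n → coeff m F = coeff m H := by
    intro n
    induction n with
    | zero =>
      intro m hm
      obtain rfl : m = 0 := by omega
      exact h0
    | succ n ih =>
      intro m hm
      rcases Nat.lt_or_ge m (n + 1) with h | h
      · exact ih m (by omega)
      obtain rfl : m = n + 1 := by omega
      have h1 := congrArg (coeff n) hF
      have h2 := congrArg (coeff n) hH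
      rw [coeff_derivative, coeff_mul] at h1 h2
      have h3 : ∑ q ∈ Finset.HasAntidiagonal.antidiagonal n, coeff q.1 F * coeff q.2 G
          = ∑ q ∈ Finset.HasAntidiagonal.antidiagonal n, coeff q.1 H * coeff q.2 G := by
        refine Finset.sum_congr rfl fun q hq => ?_
        rw [ih q.1 (by have := Finset.HasAntidiagonal.mem_antidiagonal.mp hq; omega)]
      have h4 : ((n : K) + 1) * (coeff (n + 1) F - coeff (n + 1) H) = 0 := by
        linear_combination h1 - h2 + h3
      exact sub_eq_zero.mp (htf n _ h4)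
  ext n
  exact key n n le_rfl

/-- the solution of `F' = F G`, `F 0 = 1` -/
noncomputable def sol [Field K] (G : ℕ → K) : ℕ → K
  | 0 => 1
  | (n + 1) => (∑ i : Fin (n + 1), sol G i.1 * G (n - i.1)) / (n + 1)
decreasing_by exact i.2

theorem sol_zero [Field K] (G : ℕ → K) : sol G 0 = 1 := by
  rw [sol]

theorem sol_ode [Field K] [CharZero K] (G : ℕ → K) :
    d⁄dX K (mk (sol G)) = mk (sol G) * mk G := by
  ext n
  rw [coeff_derivative, coeff_mul, coeff_mk, sol]
  have h1 : ((n : K) + 1) ≠ 0 := by exact_mod_cast Nat.succ_ne_zero n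
  rw [div_mul_cancel₀ _ h1, Finset.Nat.sum_antidiagonal_eq_sum_range_succ_mk,
    Finset.sum_range]
  simp only [coeff_mk]

end ode

variable (p : ℕ) [hp : Fact p.Prime]

open Classical in
/-- indicator of the powers of `p` -/
noncomputable def ip (R : Type*) [Zero R] [One R] (n : ℕ) : R := if ∃ j, n = p ^ j then 1 else 0

/-- coefficients of `exp (∑ t^(p^j)/p^j)` in `ℚ_[p]` -/
noncomputable def eK : ℕ → ℚ_[p] := sol (fun n => ip p ℚ_[p] (n + 1))

/-- coefficients of `exp (p t)` -/
noncomputable def xK (n : ℕ) : ℚ_[p] := (p : ℚ_[p]) ^ n / (n.factorial : ℚ_[p])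

theorem xK_ode : d⁄dX ℚ_[p] (mk (xK p)) = mk (xK p) * C (p : ℚ_[p]) := by
  ext n
  rw [coeff_derivative, coeff_mul_C, coeff_mk, coeff_mk, xK, xK, Nat.factorial_succ]
  have h1 : ((n : ℚ_[p]) + 1) ≠ 0 := by exact_mod_cast Nat.succ_ne_zero n
  have h2 : ((n.factorial : ℕ) : ℚ_[p]) ≠ 0 := by exact_mod_cast Nat.factorial_ne_zero n
  push_cast
  field_simp
  ring

theorem ip_succ (n : ℕ) : ip p ℚ_[p] (n + 1) = (if n = 0 then 1 else 0) +
    coeff n ((X : ℚ_[p]⟦X⟧) ^ (p - 1) *
      expand p hp.out.ne_zero (mk (fun n => ip p ℚ_[p] (n + 1)))) := by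
  have hp1 : 1 < p := hp.out.one_lt
  rw [coeff_X_pow_mul', coeff_expand]
  by_cases hn0 : n = 0
  · subst hn0
    have h1 : ¬ (p - 1 ≤ 0) := by omega
    have h2 : ∃ j, 0 + 1 = p ^ j := ⟨0, by simp⟩
    simp only [ip, h1, h2, if_true, if_false, add_zero]
  · by_cases h1 : p - 1 ≤ n
    · by_cases h2 : p ∣ n - (p - 1)
      · obtain ⟨m, hm⟩ := h2
        have h3 : n + 1 = p * (m + 1) := by
          rw [mul_add, mul_one, ← hm]; omega
        have h4 : (∃ j, n + 1 = p ^ j) ↔ (∃ j, m + 1 = p ^ j) := by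
          rw [h3]
          constructor
          · rintro ⟨j, hj⟩
            rcases j with _ | j
            · exfalso
              rw [pow_zero] at hj
              have : 1 ≤ m + 1 := by omega
              nlinarith
            · refine ⟨j, ?_⟩
              rw [pow_succ, mul_comm (p ^ j) p] at hj
              exact Nat.eq_of_mul_eq_mul_left hp.out.pos hj
          · rintro ⟨j, hj⟩
            exact ⟨j + 1, by rw [hj, pow_succ, mul_comm]⟩
        have h5 : (n - (p - 1)) / p = m := by
          rw [hm, Nat.mul_div_cancel_left _ hp.out.pos]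
        simp only [h1, if_true, hn0, if_false, zero_add]
        rw [if_pos ⟨m, hm⟩, h5, coeff_mk]
        unfold ip
        by_cases h6 : ∃ j, n + 1 = p ^ j
        · rw [if_pos h6, if_pos (h4.mp h6)]
        · rw [if_neg h6, if_neg (fun h7 => h6 (h4.mpr h7))]
      · have h4 : ¬ (∃ j, n + 1 = p ^ j) := by
          rintro ⟨j, hj⟩
          rcases j with _ | j
          · rw [pow_zero] at hj; omega
          · apply h2
            refine ⟨p ^ j - 1, ?_⟩
            rw [pow_succ] at hj
            rw [Nat.mul_sub, mul_one, mul_comm p, ← hj]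
            omega
        simp only [ip, h4, if_false, hn0, h1, if_true, h2, add_zero]
    · have h4 : ¬ (∃ j, n + 1 = p ^ j) := by
        rintro ⟨j, hj⟩
        rcases j with _ | j
        · rw [pow_zero] at hj; omega
        · have : p ≤ p ^ (j + 1) := Nat.le_self_pow (by omega) p
          omega
      simp only [ip, h4, if_false, hn0, h1, add_zero]

theorem derivative_expand (f : ℚ_[p]⟦X⟧) :
    d⁄dX ℚ_[p] (expand p hp.out.ne_zero f)
      = expand p hp.out.ne_zero (d⁄dX ℚ_[p] f) * (C (p : ℚ_[p]) * X ^ (p - 1)) := by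
  rw [expand_apply, expand_apply, derivative_subst (HasSubst.X_pow hp.out.ne_zero),
    derivative_pow, derivative_X, mul_one, map_natCast]

/-- `E(t)^p = exp(p t) E(t^p)` -/
theorem eK_pow : (mk (eK p)) ^ p = mk (xK p) * expand p hp.out.ne_zero (mk (eK p)) := by
  have hode : d⁄dX ℚ_[p] (mk (eK p)) = mk (eK p) * mk (fun n => ip p ℚ_[p] (n + 1)) := sol_ode _
  have hG : mk (fun n => ip p ℚ_[p] (n + 1)) = 1 + (X : ℚ_[p]⟦X⟧) ^ (p - 1) *
      expand p hp.out.ne_zero (mk (fun n => ip p ℚ_[p] (n + 1))) := by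
    ext n
    rw [coeff_mk, ip_succ, map_add, coeff_one]
  refine ode_unique (G := C (p : ℚ_[p]) * mk (fun n => ip p ℚ_[p] (n + 1))) ?_ ?_ ?_ ?_
  · intro n x h
    have h1 : ((n : ℚ_[p]) + 1) ≠ 0 := by exact_mod_cast Nat.succ_ne_zero n
    exact (mul_eq_zero.mp h).resolve_left h1
  · have h1 : coeff 0 (expand p hp.out.ne_zero (mk (eK p))) = 1 := by
      rw [coeff_expand, if_pos (dvd_zero p), Nat.zero_div, coeff_mk, eK, sol_zero]
    have h2 : coeff 0 ((mk (eK p)) ^ p) = 1 := by
      rw [coeff_zero_eq_constantCoeff_apply, map_pow, ← coeff_zero_eq_constantCoeff_apply,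
        coeff_mk, eK, sol_zero, one_pow]
    rw [h2, coeff_mul]
    simp [h1, xK]
  · rw [derivative_pow, hode]
    have h1 : (mk (eK p)) ^ p = (mk (eK p)) ^ (p - 1) * mk (eK p) := by
      rw [← pow_succ, Nat.sub_add_cancel hp.out.one_le]
    rw [h1]
    simp only [map_natCast]
    ring
  · rw [Derivation.leibniz, derivative_expand, hode, xK_ode, smul_eq_mul, smul_eq_mul, map_mul]
    conv_rhs => rw [hG]
    ring

end HN.AHs
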